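import Pool.Agent.Lib.Pb43922.Bounded

/-!
# The controlled Milnor-Wood lower bound fails: `g_e(ε)` is bounded

`g_e(ε)` is `minGenus e ε`.  For every nonzero `e` and every `ε > 0` it is attained and satisfies
`|e| + 2 ≤ 2 g_e(ε) ≤ |e| + 4`; it equals `(|e| + 3) / 2` for odd `e`.  In particular the lower
bound `c|e| / (ε² + O(ε³))` fails for every nonzero `e`.
-/

namespace Pool.Agent.Results.MP_b43922_gt.BoundedGenus

open Pool.Agent.Lib.Pb43922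

theorem result (e : ℤ) (he : e ≠ 0) :
    (∀ ε : ℝ, 0 < ε →
      Admissible e ε (minGenus e ε) ∧
      |e| + 2 ≤ 2 * (minGenus e ε : ℤ) ∧ 2 * (minGenus e ε : ℤ) ≤ |e| + 4 ∧
      (Odd e → 2 * (minGenus e ε : ℤ) = |e| + 3)) ∧
    ¬ ∃ c C ε₀ : ℝ, 0 < c ∧ 0 < ε₀ ∧ ∀ ε : ℝ, 0 < ε → ε < ε₀ →
      ∃ δ : ℝ, |δ| ≤ C * ε ^ 3 ∧ c * |(e : ℝ)| / (ε ^ 2 + δ) ≤ minGenus e ε := by
  refine ⟨fun ε hε => ?_, ?_⟩
  · obtain ⟨h1, h2, h3⟩ := bounded_final he hε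
    refine ⟨h1, h2, h3, fun ho => ?_⟩
    have ho' : Odd |e| := by
      rcases abs_choice e with h | h
      · rw [h]; exact ho
      · rw [h]; exact ho.neg
    obtain ⟨k, hk⟩ := ho'
    omega
  · have he' : (0 : ℝ) < |(e : ℝ)| := by
      rw [abs_pos]; exact_mod_cast he
    refine no_quadratic_bound (K := |(e : ℝ)| + 4) (by positivity) he' ?_
    intro ε h0 h1
    have h3 := (bounded_final he h0).2.2
    have h4 : 2 * (minGenus e ε : ℝ) ≤ |(e : ℝ)| + 4 := by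
      rw [← Int.cast_abs]
      exact_mod_cast h3
    rw [le_div_iff₀ h0]
    nlinarith [h4, (Nat.cast_nonneg (minGenus e ε) : (0 : ℝ) ≤ minGenus e ε)]

end Pool.Agent.Results.MP_b43922_gt.BoundedGenus
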