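import Pool.Agent.Lib.Pb43922.StdFinal

/-!
# Standard generating sets: the minimal genus has exact order `|e| / ε`

`minGenusStd e ε` is the smallest genus when the generating set of `π₁(Σ_g)` is required to be
the standard one `{a₁, b₁, …, a_g, b_g}`; it bounds `g_e(ε)` (`minGenus e ε`) from above.
-/

namespace Pool.Agent.Results.MP_b43922_gt.StandardGenerators

open Pool.Agent.Lib.Pb43922

theorem result (e : ℤ) (he : e ≠ 0) :
    (∀ ε : ℝ, 0 < ε → ε ≤ 1 / 2 →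
      AdmissibleStd e ε (minGenusStd e ε) ∧ minGenus e ε ≤ minGenusStd e ε ∧
      Real.pi * |(e : ℝ)| / (2 * ε) ≤ minGenusStd e ε ∧
      (minGenusStd e ε : ℝ) < 4 * |(e : ℝ)| / ε + 1) ∧
    ¬ ∃ c C ε₀ : ℝ, 0 < c ∧ 0 < ε₀ ∧ ∀ ε : ℝ, 0 < ε → ε < ε₀ →
      ∃ δ : ℝ, |δ| ≤ C * ε ^ 3 ∧ c * |(e : ℝ)| / (ε ^ 2 + δ) ≤ minGenusStd e ε := by
  refine ⟨fun ε h0 h1 => std_final he h0 h1, ?_⟩
  have he' : (0 : ℝ) < |(e : ℝ)| := by
    rw [abs_pos]; exact_mod_cast he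
  refine no_quadratic_bound (K := 4 * |(e : ℝ)| + 1) (by positivity) he' ?_
  intro ε h0 h1
  have h3 := (std_final he h0 h1).2.2.2
  have h4 : 4 * |(e : ℝ)| / ε + 1 ≤ (4 * |(e : ℝ)| + 1) / ε := by
    rw [add_div]
    have : 1 ≤ 1 / ε := by rw [le_div_iff₀ h0]; linarith
    linarith
  linarith

end Pool.Agent.Results.MP_b43922_gt.StandardGenerators
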